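import Pool.Agent.Zk48.AP.SI

/-!
MP_2f88e5_nt: for EVERY large prime `p`, almost all very short intervals of the range `1 ≤ k < 2 (p + 1)` contain the
expected number (up to a constant) of admissible `k` for which `2 k p + 1` has at most five (four, three) prime factors:
intervals of length `p ^ ε` for five, `p ^ 0.075` for four and `p ^ 0.45` for three prime factors. There is a power saving in
the number of the exceptional intervals, and all dense sets of such `k` in any of the intervals contain arithmetic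
progressions of every length whose common difference is bounded by a power of `log p`.

The proof: the weighted sieve in almost all short intervals of the starting library (`Pool.Agent.Y882.SI.engI`, uniform in
the polynomial; the variance is computed with exponential sums) for the polynomials `2 p X + 1`, with Richert's weights; and
Szemerédi's theorem relative to the values without small prime factors (`Pool.Agent.Zk41.PY`, helper41).

helper48; uses files of helper41 and of the starting library.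
-/

set_option autoImplicit false

namespace Pool.Agent.Results.MP_2f88e5_nt.AlmostAllIntervals

open Finset

/-- Richert's constant `Λ_r = 1 + log ((3 ^ r + 1) / 4) / log 3 = r + 1 - log (4 / (1 + 3 ^ (-r))) / log 3`:
`Λ_3 = 2.771...`, `Λ_4 = 3.749...`, `Λ_5 = 4.741...`. -/
noncomputable def Lambda (r : ℕ) : ℝ := 1 + Real.log ((3 ^ r + 1) / 4) / Real.log 3

open Classical in
/-- The multipliers `k` with `N < k ≤ N + H` and `p ∤ k` for which `2 k p + 1` has at most `r` prime factors, counted with
multiplicity, all of them at least `z`. -/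
noncomputable def multipliers (r : ℕ) (z : ℝ) (p N H : ℕ) : Finset ℕ :=
  (Ioc N (N + H)).filter (fun k => ¬ p ∣ k ∧ (2 * k * p + 1).primeFactorsList.length ≤ r ∧
    ∀ q : ℕ, q.Prime → q ∣ 2 * k * p + 1 → z ≤ q)

/-- The set `S` contains an arithmetic progression `a, a + d, ..., a + (l - 1) d` with common difference `1 ≤ d ≤ D`. -/
def HasNarrowProgression (l : ℕ) (D : ℝ) (S : Finset ℕ) : Prop :=
  ∃ a d : ℕ, 1 ≤ d ∧ (d : ℝ) ≤ D ∧ ∀ i < l, a + i * d ∈ S

/-- The finite set `M` has at least `m` elements, and every subset of `M` which contains a proportion at least `κ` of the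
elements of `M` contains an arithmetic progression of length `l` with common difference at most `D`. -/
def IsRich (m : ℝ) (l : ℕ) (κ D : ℝ) (M : Finset ℕ) : Prop :=
  m ≤ M.card ∧ ∀ S ⊆ M, κ * M.card ≤ S.card → HasNarrowProgression l D S

open Classical in
/-- The number of the `N` with `1 ≤ N ≤ X` for which the set of the multipliers in `(N, N + H]` is not rich. -/
noncomputable def exceptions (r : ℕ) (z : ℝ) (m : ℝ) (l : ℕ) (κ D : ℝ) (p X H : ℕ) : ℕ :=
  ((Icc 1 X).filter (fun N => ¬ IsRich m l κ D (multipliers r z p N H))).card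

/-- Let `r ≥ 1`, `θ > 0`, `0 < t ≤ 4 / 5`, `1 + α < θ t Λ_r` and `ε > 0`. There are `δ, c > 0`, and for all `l` and all
`κ > 0` there are `B` and `p₀`, such that for EVERY prime `p ≥ p₀` and all `X ≥ p ^ θ`, `X ^ ε ≤ H ≤ X` with
`X + H ≤ p ^ α` the following holds for all but at most `X ^ (max(1, 2 t) + ε) / H + X ^ (1 - t / 4 + ε)` of the integers
`1 ≤ N ≤ X`: at least `c H / log H` of the `k` in `(N, N + H]` are prime to `p` and such that `2 k p + 1` has at most `r` prime
factors, all of them at least `p ^ δ`, and every set which contains a proportion at least `κ` of these `k` contains an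
arithmetic progression of length `l` with common difference at most `(log p) ^ B`.

By the last lines, `θ = 1`, `α = 1.0001` and `(r, t) = (5, 1 / 2)`, `(4, 0.537)`, `(3, 0.722)` are allowed: so for large `p`
and `p ≤ X`, `X + H < 2 (p + 1)` there is a power saving in the number of exceptions, if `H ≥ X ^ η` for `r = 5`, where
`η > 0` is arbitrary, `H ≥ X ^ 0.075` for `r = 4`, and `H ≥ X ^ 0.45` for `r = 3`. -/
theorem result :
    (∀ (r : ℕ) (θ α t ε : ℝ), 1 ≤ r → 0 < θ → 0 < t → t ≤ 4 / 5 → 1 + α < θ * (t * Lambda r) → 0 < ε →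
      ∃ δ c : ℝ, 0 < δ ∧ 0 < c ∧ ∀ (l : ℕ) (κ : ℝ), 0 < κ → ∃ B p₀ : ℕ,
        ∀ p : ℕ, p.Prime → p₀ ≤ p → ∀ X H : ℕ, (p : ℝ) ^ θ ≤ X → ((X + H : ℕ) : ℝ) ≤ (p : ℝ) ^ α →
          (X : ℝ) ^ ε ≤ H → H ≤ X →
          (exceptions r ((p : ℝ) ^ δ) (c * (H / Real.log H)) l κ (Real.log p ^ B) p X H : ℝ) ≤
            (X : ℝ) ^ (max 1 (2 * t) + ε) / H + (X : ℝ) ^ (1 - t / 4 + ε)) ∧
    1 + (1.0001 : ℝ) < 1 * (1 / 2 * Lambda 5) ∧ 1 + (1.0001 : ℝ) < 1 * (0.537 * Lambda 4) ∧
    1 + (1.0001 : ℝ) < 1 * (0.722 * Lambda 3) := by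
  have h3 : 0 < Real.log 3 := Real.log_pos (by norm_num)
  classical
  refine ⟨?_, ?_, ?_, ?_⟩
  · intro r θ α t ε hr hθ ht0 ht h hε
    obtain ⟨δ, c, hδ, hc, hmain⟩ := Pool.Agent.Zk48.AP.everySI r hr θ α t ε hθ ht0 ht h hε
    refine ⟨δ, c, hδ, hc, fun l κ hκ => ?_⟩
    obtain ⟨B, p₀, hB⟩ := hmain l (κ * c) δ (by positivity) hδ
    refine ⟨B, p₀, fun p hp hp0 X H hX hXH hXε hHX => ?_⟩
    obtain ⟨h1, h2⟩ := hB p X H hp hp0 hX hXH hXε hHX
    refine le_trans ?_ h1
    have hsub : (Icc 1 X).filter (fun N => ¬ IsRich (c * (H / Real.log H)) l κ (Real.log p ^ B)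
          (multipliers r ((p : ℝ) ^ δ) p N H)) ⊆
        (Icc 1 X).filter (fun N => ((Pool.Agent.Zk48.AP.RR r ((p : ℝ) ^ δ) p N H).card : ℝ) < c * (H / Real.log H)) := by
      intro N hN
      rw [mem_filter] at hN ⊢
      refine ⟨hN.1, ?_⟩
      by_contra hcon
      push Not at hcon
      apply hN.2
      refine ⟨hcon, fun S hS hSc => ?_⟩
      have hcon' : c * (H / Real.log H) ≤ ((multipliers r ((p : ℝ) ^ δ) p N H).card : ℝ) := hcon
      refine h2 N (mem_Icc.1 hN.1).2 S (fun k hk => ?_) (fun k hk q hq hd => ?_) ?_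
      · exact (mem_filter.1 (hS hk)).1
      · exact (mem_filter.1 (hS hk)).2.2.2 q hq hd
      · calc κ * c * (H / Real.log H) = κ * (c * (H / Real.log H)) := by ring
          _ ≤ κ * (multipliers r ((p : ℝ) ^ δ) p N H).card := mul_le_mul_of_nonneg_left hcon' hκ.le
          _ ≤ S.card := hSc
    exact_mod_cast card_le_card hsub
  · have h1 : 7 * Real.log 3 ≤ 2 * Real.log 61 := by
      have h2 : Real.log ((3 : ℝ) ^ 7) ≤ Real.log ((61 : ℝ) ^ 2) := Real.log_le_log (by norm_num) (by norm_num)
      rw [Real.log_pow, Real.log_pow] at h2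
      push_cast at h2
      exact h2
    have h2 : (7 / 2 : ℝ) ≤ Real.log ((3 ^ 5 + 1) / 4) / Real.log 3 := by
      rw [le_div_iff₀ h3, show ((3 : ℝ) ^ 5 + 1) / 4 = 61 by norm_num]
      linarith
    unfold Lambda
    linarith
  · have h1 : 30 * Real.log 3 ≤ 11 * Real.log (41 / 2) := by
      have h2 : Real.log ((3 : ℝ) ^ 30) ≤ Real.log ((41 / 2 : ℝ) ^ 11) := Real.log_le_log (by norm_num) (by norm_num)
      rw [Real.log_pow, Real.log_pow] at h2
      push_cast at h2
      exact h2
    have h2 : (30 / 11 : ℝ) ≤ Real.log ((3 ^ 4 + 1) / 4) / Real.log 3 := by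
      rw [le_div_iff₀ h3, show ((3 : ℝ) ^ 4 + 1) / 4 = 41 / 2 by norm_num]
      linarith
    unfold Lambda
    linarith
  · have h1 : 1 + (131 : ℝ) / 74 ≤ Lambda 3 := Pool.Agent.K3h19.RV.lam_three
    linarith

end Pool.Agent.Results.MP_2f88e5_nt.AlmostAllIntervals
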