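import Pool.Agent.Zk48.AP.V6

/-!
MP_2f88e5_nt: tiny multipliers for almost all primes. For all primes `p ≤ X` but `X ^ (1 - δ)` of them, and for EVERY `K` with
`X ^ ε ≤ K ≤ X ^ 0.38`, at least `c K / log K` of the `k ≤ K` are such that `2 k p + 1` has at most three prime factors; with
four, resp. five, prime factors the same holds for `K ≤ X ^ 0.86`, resp. for `K ≤ X ^ 1.0001`, which includes the whole range
`k < 2 (p + 1)` of the question. Moreover all dense subsets of the set of these `k ≤ K` contain arithmetic progressions of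
every length whose common difference is bounded by a power of `log p`.

The proof: the second moment, over all moduli `m ≤ X`, of the remainder sum of the sieve for the numbers `2 k m + 1`, `k ≤ K`
(level of distribution `X ^ (1 / 2)` for almost all `m`, for every `K ≥ X ^ ε`); Richert's weights in the form of the starting
library (`Pool.Agent.Y882.KW.core4`), and Szemerédi's theorem relative to the values without small prime factors
(`Pool.Agent.Zk41.PY`, helper41), uniformly in `p`.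

helper48; uses files of helper41 and of the starting library.
-/

set_option autoImplicit false

namespace Pool.Agent.Results.MP_2f88e5_nt.AlmostAllPrimes

open Finset

/-- Richert's constant `Λ_r = 1 + log ((3 ^ r + 1) / 4) / log 3 = r + 1 - log (4 / (1 + 3 ^ (-r))) / log 3`:
`Λ_3 = 2.771...`, `Λ_4 = 3.749...`, `Λ_5 = 4.741...`. -/
noncomputable def Lambda (r : ℕ) : ℝ := 1 + Real.log ((3 ^ r + 1) / 4) / Real.log 3

open Classical in
/-- The multipliers `k` with `1 ≤ k ≤ K` and `p ∤ k` for which `2 k p + 1` has at most `r` prime factors, counted with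
multiplicity, all of them at least `z`. -/
noncomputable def multipliers (r : ℕ) (z : ℝ) (p K : ℕ) : Finset ℕ :=
  (Icc 1 K).filter (fun k => ¬ p ∣ k ∧ (2 * k * p + 1).primeFactorsList.length ≤ r ∧
    ∀ q : ℕ, q.Prime → q ∣ 2 * k * p + 1 → z ≤ q)

/-- The set `S` contains an arithmetic progression `a, a + d, ..., a + (l - 1) d` with common difference `1 ≤ d ≤ D`. -/
def HasNarrowProgression (l : ℕ) (D : ℝ) (S : Finset ℕ) : Prop :=
  ∃ a d : ℕ, 1 ≤ d ∧ (d : ℝ) ≤ D ∧ ∀ i < l, a + i * d ∈ S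

/-- The finite set `M` has at least `m` elements, and every subset of `M` which contains a proportion at least `κ` of the
elements of `M` contains an arithmetic progression of length `l` with common difference at most `D`. -/
def IsRich (m : ℝ) (l : ℕ) (κ D : ℝ) (M : Finset ℕ) : Prop :=
  m ≤ M.card ∧ ∀ S ⊆ M, κ * M.card ≤ S.card → HasNarrowProgression l D S

open Classical in
/-- The number of the primes `p ≤ X` for which there is a `K` with `h ≤ K ≤ X ^ α` such that the set of the multipliers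
`k ≤ K` is not rich (with at least `c K / log K` elements and differences at most `(log p) ^ B`). -/
noncomputable def exceptions (r : ℕ) (z c : ℝ) (l : ℕ) (κ : ℝ) (B : ℕ) (α : ℝ) (X h : ℕ) : ℕ :=
  (((Icc 1 X).filter Nat.Prime).filter (fun p : ℕ => ∃ K : ℕ, h ≤ K ∧ (K : ℝ) ≤ (X : ℝ) ^ α ∧
    ¬ IsRich (c * (K / Real.log K)) l κ (Real.log p ^ B) (multipliers r z p K))).card

/-- Let `r ≥ 1`, `α > 0`, `0 < t < 1 / 2`, `1 + α < t Λ_r` and `ε > 0`. There is `c > 0`, and for all `l` and all `κ > 0` there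
are `B` and `X₀`, such that for all `X ≥ X₀` and all `h ≥ X ^ ε` the following holds for all but at most
`X ^ (1 + ε) / h + X ^ (2 t + ε) + X ^ (1 - t / 4 + ε)` of the primes `p ≤ X`: for EVERY `K` with `h ≤ K ≤ X ^ α`, at least
`c K / log K` of the `k ≤ K` are prime to `p` and such that `2 k p + 1` has at most `r` prime factors, all of them at least
`X ^ (t / 4)`, and every set which contains a proportion at least `κ` of these `k` contains an arithmetic progression of
length `l` with common difference at most `(log p) ^ B`.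

By the last lines, `t = 0.499` and `(r, α) = (3, 0.38)`, `(4, 0.86)`, `(5, 1.0001)` are allowed: so with `h = X ^ η` for an
arbitrary `η > 0` there is a power saving in the number of the exceptional primes. -/
theorem result :
    (∀ (r : ℕ) (α t ε : ℝ), 1 ≤ r → 0 < α → 0 < t → t < 1 / 2 → 1 + α < t * Lambda r → 0 < ε →
      ∃ c : ℝ, 0 < c ∧ ∀ (l : ℕ) (κ : ℝ), 0 < κ → ∃ B X₀ : ℕ, ∀ X h : ℕ, X₀ ≤ X → (X : ℝ) ^ ε ≤ h →
        (exceptions r ((X : ℝ) ^ (t / 4)) c l κ B α X h : ℝ) ≤
          (X : ℝ) ^ (1 + ε) / h + (X : ℝ) ^ (2 * t + ε) + (X : ℝ) ^ (1 - t / 4 + ε)) ∧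
    1 + (0.38 : ℝ) < 0.499 * Lambda 3 ∧ 1 + (0.86 : ℝ) < 0.499 * Lambda 4 ∧ 1 + (1.0001 : ℝ) < 0.499 * Lambda 5 := by
  have h3 : 0 < Real.log 3 := Real.log_pos (by norm_num)
  classical
  refine ⟨?_, ?_, ?_, ?_⟩
  · intro r α t ε hr hα ht0 ht h hε
    obtain ⟨c, hc, X₁, hmain⟩ := Pool.Agent.Zk48.AP.all_AP r hr α t ε hα ht0 ht h hε
    refine ⟨c, hc, fun l κ hκ => ?_⟩
    obtain ⟨B, p₀, hden⟩ := Pool.Agent.Zk48.AP.dense l ε (2 * α + ε) (κ * c) (t / 4) hε (by linarith) (by positivity)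
      (by positivity)
    refine ⟨B, X₁ + p₀ ^ 2 + 1, fun X h hX hXε => ?_⟩
    refine le_trans ?_ (hmain X h (by omega) hXε)
    have hX1 : (1 : ℝ) ≤ X := by exact_mod_cast (by omega : 1 ≤ X)
    have hX0 : (0 : ℝ) < X := by linarith
    have hRR : ∀ p K : ℕ, Pool.Agent.Zk48.AP.RR r ((X : ℝ) ^ (t / 4)) p 0 K = multipliers r ((X : ℝ) ^ (t / 4)) p K := by
      intro p K
      unfold Pool.Agent.Zk48.AP.RR multipliers
      ext k
      simp only [mem_filter, mem_Ioc, mem_Icc, zero_add]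
      constructor
      · rintro ⟨⟨h1, h2⟩, h4⟩
        exact ⟨⟨by omega, h2⟩, h4⟩
      · rintro ⟨⟨h1, h2⟩, h4⟩
        exact ⟨⟨by omega, h2⟩, h4⟩
    have hsub : ((Icc 1 X).filter Nat.Prime).filter (fun p : ℕ => ∃ K : ℕ, h ≤ K ∧ (K : ℝ) ≤ (X : ℝ) ^ α ∧
          ¬ IsRich (c * (K / Real.log K)) l κ (Real.log p ^ B) (multipliers r ((X : ℝ) ^ (t / 4)) p K)) ⊆
        ((Icc 1 X).filter Nat.Prime).filter (fun p : ℕ => (p : ℝ) ≤ (X : ℝ) ^ (1 / 2 : ℝ) ∨ ∃ K : ℕ, h ≤ K ∧
        (K : ℝ) ≤ (X : ℝ) ^ α ∧ ((Pool.Agent.Zk48.AP.RR r ((X : ℝ) ^ (t / 4)) p 0 K).card : ℝ) <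
          c * (K / Real.log K)) := by
      intro p hp
      rw [mem_filter] at hp ⊢
      obtain ⟨hp1, K, hK1, hK2, hK3⟩ := hp
      refine ⟨hp1, ?_⟩
      by_contra hcon
      push Not at hcon
      obtain ⟨hc1, hc2⟩ := hcon
      have hc3 := hc2 K hK1 hK2
      rw [hRR] at hc3
      apply hK3
      refine ⟨hc3, fun S hS hSc => ?_⟩
      rw [mem_filter, mem_Icc] at hp1
      obtain ⟨⟨hp2, hp3⟩, hp4⟩ := hp1
      have hpX : (p : ℝ) ≤ X := by exact_mod_cast hp3
      have hp0 : (0 : ℝ) < p := by exact_mod_cast hp4.pos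
      have hXp : (X : ℝ) ≤ (p : ℝ) ^ (2 : ℝ) := by
        calc (X : ℝ) = ((X : ℝ) ^ (1 / 2 : ℝ)) ^ (2 : ℝ) := by
              rw [← Real.rpow_mul hX0.le]
              norm_num
          _ ≤ _ := Real.rpow_le_rpow (by positivity) hc1.le (by norm_num)
      have hpp : p₀ ≤ p := by
        have h1 : p₀ ^ 2 ≤ p ^ 2 := by
          have h2 : ((p₀ ^ 2 : ℕ) : ℝ) ≤ ((p ^ 2 : ℕ) : ℝ) := by
            calc ((p₀ ^ 2 : ℕ) : ℝ) ≤ X := by exact_mod_cast (by omega : p₀ ^ 2 ≤ X)
              _ ≤ (p : ℝ) ^ (2 : ℝ) := hXp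
              _ = ((p ^ 2 : ℕ) : ℝ) := by
                  push_cast
                  rw [Real.rpow_two]
          exact_mod_cast h2
        exact (Nat.pow_le_pow_iff_left (by norm_num)).1 h1
      refine hden p 0 K hp4 hpp ?_ ?_ S (fun k hk => ?_) (fun k hk q hq hd => ?_) ?_
      · calc (p : ℝ) ^ ε ≤ (X : ℝ) ^ ε := Real.rpow_le_rpow hp0.le hpX hε.le
          _ ≤ h := hXε
          _ ≤ K := by exact_mod_cast hK1
      · rw [zero_add]
        calc (K : ℝ) ≤ (X : ℝ) ^ α := hK2
          _ ≤ ((p : ℝ) ^ (2 : ℝ)) ^ α := Real.rpow_le_rpow hX0.le hXp hα.le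
          _ = (p : ℝ) ^ (2 * α) := by rw [← Real.rpow_mul hp0.le]
          _ ≤ (p : ℝ) ^ (2 * α + ε) := by
              apply Real.rpow_le_rpow_of_exponent_le _ (by linarith)
              exact_mod_cast hp4.one_le
      · have h1 := mem_Icc.1 (mem_filter.1 (hS hk)).1
        rw [mem_Ioc]
        omega
      · refine le_trans ?_ ((mem_filter.1 (hS hk)).2.2.2 q hq hd)
        exact Real.rpow_le_rpow hp0.le hpX (by positivity)
      · calc κ * c * (K / Real.log K) = κ * (c * (K / Real.log K)) := by ring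
          _ ≤ κ * (multipliers r ((X : ℝ) ^ (t / 4)) p K).card := mul_le_mul_of_nonneg_left hc3 hκ.le
          _ ≤ S.card := hSc
    exact_mod_cast card_le_card hsub
  · have h1 : 1 + (131 : ℝ) / 74 ≤ Lambda 3 := Pool.Agent.K3h19.RV.lam_three
    linarith
  · have h1 : 63 * Real.log 3 ≤ 23 * Real.log (41 / 2) := by
      have h2 : Real.log ((3 : ℝ) ^ 63) ≤ Real.log ((41 / 2 : ℝ) ^ 23) := Real.log_le_log (by norm_num) (by norm_num)
      rw [Real.log_pow, Real.log_pow] at h2
      push_cast at h2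
      exact h2
    have h2 : (63 / 23 : ℝ) ≤ Real.log ((3 ^ 4 + 1) / 4) / Real.log 3 := by
      rw [le_div_iff₀ h3, show ((3 : ℝ) ^ 4 + 1) / 4 = 41 / 2 by norm_num]
      linarith
    unfold Lambda
    linarith
  · have h1 : 7 * Real.log 3 ≤ 2 * Real.log 61 := by
      have h2 : Real.log ((3 : ℝ) ^ 7) ≤ Real.log ((61 : ℝ) ^ 2) := Real.log_le_log (by norm_num) (by norm_num)
      rw [Real.log_pow, Real.log_pow] at h2
      push_cast at h2
      exact h2
    have h2 : (7 / 2 : ℝ) ≤ Real.log ((3 ^ 5 + 1) / 4) / Real.log 3 := by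
      rw [le_div_iff₀ h3, show ((3 : ℝ) ^ 5 + 1) / 4 = 61 by norm_num]
      linarith
    unfold Lambda
    linarith

end Pool.Agent.Results.MP_2f88e5_nt.AlmostAllPrimes
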