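import Pool.Agent.Zk38.Mult.C

/-!
Many primes `p` have a full share of multipliers `k ≤ p ^ (1 - δ)` with `2 k p + 1` prime, and every dense set of these
multipliers contains arithmetic progressions of every length with differences bounded by a power of `log p`.
-/

set_option autoImplicit false

namespace Pool.Agent.Results.MP_2f88e5_nt.DenseSetsOfMultipliers

open Finset

/-- The multipliers `1 ≤ k ≤ K` such that `2 k p + 1` is prime. -/
def multipliers (p K : ℕ) : Finset ℕ := (Icc 1 K).filter (fun k => (2 * k * p + 1).Prime)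

/-- There are constants `c, δ > 0`, a set `G` of odd primes and a function `K` such that the following hold.

* For every `p ∈ G`: `p ^ δ ≤ K p ≤ p ^ (1 - δ)` (so every `k` with `1 ≤ k ≤ K p` is admissible for `p`, that is
  `k < 2 (p + 1)` and `p ∤ k`), and `2 k p + 1` is prime for at least `c K p / log p` integers `k` with `1 ≤ k ≤ K p`.
* `G` has positive lower density on the scale `log log`: for all large `x` the sum of `1 / p` over the `p ∈ G` with
  `x ^ (1/2 + δ) < p ≤ x ^ (1 - δ)` is at least `c`.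
* Let `m` and `ε > 0` be given. There are `B` and `p₀` such that, for every `p ∈ G` with `p ≥ p₀`, every set `U` of
  integers `1 ≤ k ≤ K p` with `2 k p + 1` prime which contains a proportion at least `ε` of all such integers contains an
  arithmetic progression `a, a + d, ..., a + (m - 1) d` with `1 ≤ d ≤ (log p) ^ B`. -/
theorem result : ∃ c δ : ℝ, 0 < c ∧ 0 < δ ∧ ∃ (G : Set ℕ) (K : ℕ → ℕ),
    (∀ p ∈ G, p.Prime ∧ p ≠ 2 ∧ (p : ℝ) ^ δ ≤ K p ∧ (K p : ℝ) ≤ (p : ℝ) ^ (1 - δ) ∧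
      (∀ k : ℕ, 1 ≤ k → k ≤ K p → k < 2 * (p + 1) ∧ ¬ p ∣ k) ∧
      c * K p / Real.log p ≤ (multipliers p (K p)).card) ∧
    (∃ x₀ : ℕ, ∀ x : ℕ, x₀ ≤ x → ∃ P : Finset ℕ, (∀ p ∈ P, p ∈ G ∧ (x : ℝ) ^ (1 / 2 + δ) < p ∧
      (p : ℝ) ≤ (x : ℝ) ^ (1 - δ)) ∧ c ≤ ∑ p ∈ P, 1 / (p : ℝ)) ∧
    (∀ (m : ℕ) (ε : ℝ), 0 < ε → ∃ B p₀ : ℕ, ∀ p ∈ G, p₀ ≤ p → ∀ U ⊆ multipliers p (K p),
      ε * ((multipliers p (K p)).card : ℝ) ≤ U.card →
      ∃ a d : ℕ, 1 ≤ d ∧ (d : ℝ) ≤ Real.log p ^ B ∧ ∀ j < m, a + j * d ∈ U) :=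
  Pool.Agent.Zk38.Mult.main

end Pool.Agent.Results.MP_2f88e5_nt.DenseSetsOfMultipliers
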