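import Pool.Agent.Zk48.AP.Main

/-!
MP_2f88e5_nt: for EVERY large prime `p`, all intervals of length `p ^ 0.722` in the range `1 ≤ k < 2 (p + 1)` contain the
expected number (up to a constant) of admissible `k` for which `2 k p + 1` has at most three prime factors, all of them at
least `p ^ δ`, and all dense sets of such `k` contain arithmetic progressions of every length whose common difference is
bounded by a power of `log p`.

The proof: Richert's weighted sieve (the abstract form `Pool.Agent.Y882.KW.core4` of the starting library), uniform in the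
prime `p`, which may be much larger than the number of the `k`; and Szemerédi's theorem relative to the values without small
prime factors of polynomials whose coefficients may be powers of the length of the interval (`Pool.Agent.Zk41.PY`, helper41,
which rests on the transference theorem of the starting library).

helper48; uses files of helper41 and of the starting library.
-/

set_option autoImplicit false

namespace Pool.Agent.Results.MP_2f88e5_nt.EveryPrime

open Finset

/-- Richert's constant `Λ_r = 1 + log ((3 ^ r + 1) / 4) / log 3 = r + 1 - log (4 / (1 + 3 ^ (-r))) / log 3`: `Λ_2 = 1.834...`,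
`Λ_3 = 2.771...`, `Λ_4 = 3.749...`. -/
noncomputable def Lambda (r : ℕ) : ℝ := 1 + Real.log ((3 ^ r + 1) / 4) / Real.log 3

open Classical in
/-- The multipliers `k` with `Y < k ≤ Y + H` and `p ∤ k` for which `2 k p + 1` has at most `r` prime factors, counted with
multiplicity, all of them at least `z`. -/
noncomputable def multipliers (r : ℕ) (z : ℝ) (p Y H : ℕ) : Finset ℕ :=
  (Ioc Y (Y + H)).filter (fun k => ¬ p ∣ k ∧ (2 * k * p + 1).primeFactorsList.length ≤ r ∧
    ∀ q : ℕ, q.Prime → q ∣ 2 * k * p + 1 → z ≤ q)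

/-- `2 k p + 1` has no prime factor smaller than `z`, for all `k ∈ S`. -/
def IsRough (z : ℝ) (p : ℕ) (S : Finset ℕ) : Prop :=
  ∀ k ∈ S, ∀ q : ℕ, q.Prime → q ∣ 2 * k * p + 1 → z ≤ q

/-- The set `S` contains an arithmetic progression `a, a + d, ..., a + (l - 1) d` with common difference `1 ≤ d ≤ D`. -/
def HasNarrowProgression (l : ℕ) (D : ℝ) (S : Finset ℕ) : Prop :=
  ∃ a d : ℕ, 1 ≤ d ∧ (d : ℝ) ≤ D ∧ ∀ i < l, a + i * d ∈ S

/-- Let `r ≥ 1`, `θ > 0` and `1 + α < θ Λ_r`. There are `δ, c > 0`, and for all `l` and all `κ, ρ > 0` there are `B` and `p₀`,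
such that for EVERY prime `p ≥ p₀` and all intervals `(Y, Y + H]` with `H ≥ p ^ θ`, `Y + H ≤ p ^ α`:

* at least `c H / log H` of the `k` in `(Y, Y + H]` are prime to `p` and such that `2 k p + 1` has at most `r` prime factors,
  all of them at least `p ^ δ`;
* every set `S` of at least `κ H / log H` integers `k` in `(Y, Y + H]` such that `2 k p + 1` has no prime factors smaller than
  `p ^ ρ` contains an arithmetic progression of length `l` with common difference at most `(log p) ^ B`.

By the last line, `r = 3`, `θ = 0.722` and `α = 1.0001` are allowed, so that all intervals of length `H ≥ p ^ 0.722` with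
`Y + H < 2 (p + 1)` are covered if `p` is large. Since `c` and `δ` do not depend on `l`, `κ`, `ρ`, the second part applies
to every subset of positive relative density of the set of multipliers of the first part. -/
theorem result :
    (∀ (r : ℕ) (θ α : ℝ), 1 ≤ r → 0 < θ → 1 + α < θ * Lambda r →
      ∃ δ c : ℝ, 0 < δ ∧ 0 < c ∧ ∀ (l : ℕ) (κ ρ : ℝ), 0 < κ → 0 < ρ → ∃ B p₀ : ℕ,
        ∀ p : ℕ, p.Prime → p₀ ≤ p → ∀ Y H : ℕ, (p : ℝ) ^ θ ≤ H → ((Y + H : ℕ) : ℝ) ≤ (p : ℝ) ^ α →
          c * (H / Real.log H) ≤ (multipliers r ((p : ℝ) ^ δ) p Y H).card ∧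
          ∀ S ⊆ Ioc Y (Y + H), IsRough ((p : ℝ) ^ ρ) p S → κ * (H / Real.log H) ≤ S.card →
            HasNarrowProgression l (Real.log p ^ B) S) ∧
    1 + (1.0001 : ℝ) < 0.722 * Lambda 3 := by
  constructor
  · intro r θ α hr hθ h
    obtain ⟨δ, c, hδ, hc, hmain⟩ := Pool.Agent.Zk48.AP.every r hr θ α hθ h
    refine ⟨δ, c, hδ, hc, fun l κ ρ hκ hρ => ?_⟩
    obtain ⟨B, p₀, hB⟩ := hmain l κ ρ hκ hρ
    refine ⟨B, p₀, fun p hp hp0 Y H hH hYH => ?_⟩
    obtain ⟨h1, h2⟩ := hB p Y H hp hp0 hH hYH
    exact ⟨h1, fun S hS hSr hSc => h2 S hS hSr hSc⟩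
  · have h1 : 1 + (131 : ℝ) / 74 ≤ Lambda 3 := Pool.Agent.K3h19.RV.lam_three
    linarith

end Pool.Agent.Results.MP_2f88e5_nt.EveryPrime
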